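import Pool.Agent.Helper48_X1.Lb4

/-!
# Squad X1, TCE: the scalars of a representation and of its label agree
-/

open scoped BigOperators

noncomputable section

namespace Pool.Agent.PP.X1.H81

open Pool.Agent.Helper51_AWC Pool.Agent.Helper79_WRA Pool.Agent.PP Pool.Agent.PP.X1

variable {ℓ : ℕ} {G F : Type} [Group G] [Field F]

/-- A matrix which implements an automorphism is restricted to the fixed points of `U`. -/
theorem down [Fact ℓ.Prime] (hF : GoodF ℓ F) [Finite G] (R : RGD ℓ G) {J : Finset (Fin R.r)}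
    {k m : ℕ} {ρ : R.PJ J →* Matrix (Fin k) (Fin k) F} {σ : R.B →* Matrix (Fin m) (Fin m) F}
    (hσ : IsIrr σ) {X : Matrix (Fin k) (Fin m) F} {Y : Matrix (Fin m) (Fin k) F} (hYX : Y * X = 1)
    (hX : ∀ b ∈ R.B, ro ρ b * X = X * ro σ b) (hfx : ∀ v ∈ fx R.U ρ, ∃ c, v = X.mulVec c)
    {α : MulAut G} (hU : ∀ u, α u ∈ R.U ↔ u ∈ R.U) (hB : ∀ b, α b ∈ R.B ↔ b ∈ R.B)
    {A : Matrix (Fin k) (Fin k) F} (hAu : IsUnit A)
    (hA : ∀ g ∈ R.PJ J, A * ro ρ g = ro ρ (α g) * A) :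
    A * X = X * (Y * (A * X)) ∧ IsUnit (Y * (A * X)) ∧
      ∀ b ∈ R.B, Y * (A * X) * ro σ b = ro σ (α b) * (Y * (A * X)) := by
  have e1 : A * X = X * (Y * (A * X)) := by
    apply H48.mat_ext_mulVec
    intro c
    have h1 : A.mulVec (X.mulVec c) ∈ fx R.U ρ := by
      intro u hu
      obtain ⟨u', rfl⟩ := α.surjective u
      have hu' : u' ∈ R.U := (hU u').1 hu
      rw [Matrix.mulVec_mulVec, ← hA u' (H48.U_le_PJ R J hu'), ← Matrix.mulVec_mulVec,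
        H48.lab_fix hF R hσ hX c u' hu']
    obtain ⟨e, he⟩ := hfx _ h1
    rw [← Matrix.mulVec_mulVec, he, ← Matrix.mulVec_mulVec, ← Matrix.mulVec_mulVec,
      ← Matrix.mulVec_mulVec, he, Matrix.mulVec_mulVec e Y X, hYX, Matrix.one_mulVec]
  have hXi : Function.Injective X.mulVec := by
    intro v v' h
    have h1 := congrArg (fun t => Y.mulVec t) h
    simp only [Matrix.mulVec_mulVec, hYX, Matrix.one_mulVec] at h1
    exact h1
  have hAi : Function.Injective A.mulVec := Matrix.mulVec_injective_iff_isUnit.2 hAu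
  refine ⟨e1, ?_, ?_⟩
  · apply Matrix.mulVec_injective_iff_isUnit.1
    intro v v' h
    apply hXi
    apply hAi
    have h1 := congrArg (fun t => X.mulVec t) h
    simp only [Matrix.mulVec_mulVec] at h1
    rw [← e1] at h1
    rw [Matrix.mulVec_mulVec, Matrix.mulVec_mulVec]
    exact h1
  · intro b hb
    obtain ⟨A1, hA1⟩ : ∃ A1, A1 = Y * (A * X) := ⟨_, rfl⟩
    rw [← hA1] at e1 ⊢
    have h1 : X * (A1 * ro σ b) = X * (ro σ (α b) * A1) := by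
      rw [← Matrix.mul_assoc, ← e1, Matrix.mul_assoc, ← hX b hb, ← Matrix.mul_assoc,
        hA b (H48.B_le_PJ R J hb), Matrix.mul_assoc, e1, ← Matrix.mul_assoc,
        hX _ ((hB b).2 hb), Matrix.mul_assoc]
    have h2 : Y * (X * (A1 * ro σ b)) = Y * (X * (ro σ (α b) * A1)) := by
      rw [h1]
    rw [← Matrix.mul_assoc, hYX, Matrix.one_mul, ← Matrix.mul_assoc Y X, hYX, Matrix.one_mul] at h2
    exact h2

/-- transport of an implementing matrix -/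
theorem trans {P : Subgroup G} {n k : ℕ} {ρ' : P →* Matrix (Fin n) (Fin n) F}
    {ρ : P →* Matrix (Fin k) (Fin k) F} {S : Matrix (Fin k) (Fin n) F}
    {S' : Matrix (Fin n) (Fin k) F} (h1 : S * S' = 1) (h2 : S' * S = 1)
    (hS : ∀ g, S * ro ρ' g = ro ρ g * S) (hS' : ∀ g, S' * ro ρ g = ro ρ' g * S')
    {A : Matrix (Fin n) (Fin n) F} (hAu : IsUnit A) {α : MulAut G}
    (hA : ∀ g ∈ P, A * ro ρ' g = ro ρ' (α g) * A) :
    IsUnit (S * A * S') ∧ ∀ g ∈ P, S * A * S' * ro ρ g = ro ρ (α g) * (S * A * S') := by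
  constructor
  · obtain ⟨u, rfl⟩ := hAu
    have h3 : (S * (u : Matrix (Fin n) (Fin n) F) * S') *
        (S * ((u⁻¹ : (Matrix (Fin n) (Fin n) F)ˣ) : Matrix (Fin n) (Fin n) F) * S') = 1 := by
      have h4 : (S * (u : Matrix (Fin n) (Fin n) F) * S') *
          (S * ((u⁻¹ : (Matrix (Fin n) (Fin n) F)ˣ) : Matrix (Fin n) (Fin n) F) * S') =
          S * ((u : Matrix (Fin n) (Fin n) F) * (S' * S) *
            ((u⁻¹ : (Matrix (Fin n) (Fin n) F)ˣ) : Matrix (Fin n) (Fin n) F)) * S' := by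
        simp only [Matrix.mul_assoc]
      rw [h4, h2, Matrix.mul_one, Units.mul_inv, Matrix.mul_one, h1]
    exact IsUnit.of_mul_eq_one _ h3
  · intro g hg
    rw [Matrix.mul_assoc, hS', ← Matrix.mul_assoc, Matrix.mul_assoc S, hA g hg,
      ← Matrix.mul_assoc S, hS, Matrix.mul_assoc, Matrix.mul_assoc, Matrix.mul_assoc]

theorem tce (htcu : TcuStmt) (hprx : PrmxStmt) : TceStmt := by
  intro ℓ _ F _ hF G _ _ R J α β c hα hβ hc hPα hPβ hcom k m ρ σ K hL hfα hfβ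
  obtain ⟨-, hBα, -⟩ := hprx ℓ G R α hα
  obtain ⟨-, hBβ, -⟩ := hprx ℓ G R β hβ
  have hcP : c ∈ R.PJ J := H48.B_le_PJ R J hc
  obtain ⟨hz0, ⟨n, ρ', X', Y', hρ', htr, hXu', hYu', hX', hY', hXY'⟩, -⟩ :=
    htcu ℓ F hF G (R.PJ J) (tr ρ) ⟨k, ρ, hL.1, rfl⟩ α β c hcP hPα hPβ hcom hfα hfβ
  obtain ⟨z, hz⟩ : ∃ z, z = tca (R.PJ J) (tr ρ) α β c := ⟨_, rfl⟩
  rw [← hz] at hXY' ⊢
  obtain ⟨S, S', -, h1, h2, hS⟩ :=
    Pool.Agent.PP.H20.ibc ℓ F hF (R.PJ J) n k ρ' ρ hρ' hL.1 htr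
  have hS1 : ∀ g, S * ro ρ' g = ro ρ g * S := H48.ro_inter hS
  have hS2 : ∀ g, S' * ro ρ g = ro ρ' g * S' := by
    intro g
    have h4 : S' * (S * ro ρ' g) * S' = ro ρ' g * S' := by
      rw [← Matrix.mul_assoc, h2, Matrix.one_mul]
    have h5 : S' * (ro ρ g * S) * S' = S' * ro ρ g := by
      rw [← Matrix.mul_assoc, Matrix.mul_assoc, h1, Matrix.mul_one]
    rw [← h4, ← h5, hS1]
  obtain ⟨hAu, hA⟩ := trans h1 h2 hS1 hS2 hXu' hX'
  obtain ⟨hBu, hB⟩ := trans h1 h2 hS1 hS2 hYu' hY'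
  obtain ⟨A, hAd⟩ : ∃ A, A = S * X' * S' := ⟨_, rfl⟩
  obtain ⟨B, hBd⟩ : ∃ B, B = S * Y' * S' := ⟨_, rfl⟩
  rw [← hAd] at hAu hA
  rw [← hBd] at hBu hB
  have hAB : A * B = z • (ro ρ c * B * A) := by
    have e1 : A * B = S * (X' * Y') * S' := by
      rw [hAd, hBd]
      have : S * X' * S' * (S * Y' * S') = S * (X' * (S' * S) * Y') * S' := by
        simp only [Matrix.mul_assoc]
      rw [this, h2, Matrix.mul_one]
    have e2 : ro ρ c * B * A = S * (ro ρ' c * Y' * X') * S' := by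
      have : ro ρ c * B * A = (ro ρ c * S) * Y' * (S' * S) * X' * S' := by
        rw [hAd, hBd]
        simp only [Matrix.mul_assoc]
      rw [this, h2, ← hS1, Matrix.mul_one]
      simp only [Matrix.mul_assoc]
    rw [e1, hXY', e2, Matrix.mul_smul, Matrix.smul_mul]
  obtain ⟨-, hσ, hKJ, X, Y, hYX, hX, hfx, hK⟩ := hL
  obtain ⟨a1, a2, a3⟩ := down hF R hσ hYX hX hfx hα hBα hAu hA
  obtain ⟨b1, b2, b3⟩ := down hF R hσ hYX hX hfx hβ hBβ hBu hB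
  obtain ⟨A1, hA1⟩ : ∃ A1, A1 = Y * (A * X) := ⟨_, rfl⟩
  obtain ⟨B1, hB1⟩ : ∃ B1, B1 = Y * (B * X) := ⟨_, rfl⟩
  rw [← hA1] at a1 a2 a3
  rw [← hB1] at b1 b2 b3
  have hfix : ∀ (γ : MulAut G), (∀ b, γ b ∈ R.B ↔ b ∈ R.B) → ∀ C1 : Matrix (Fin m) (Fin m) F,
      IsUnit C1 → (∀ b ∈ R.B, C1 * ro σ b = ro σ (γ b) * C1) → Fxd R.B (tr σ) γ := by
    intro γ _ C1 hC hC1 g g' hg
    obtain ⟨u, rfl⟩ := hC
    show (σ g').trace = (σ g).trace
    have h3 := hC1 g g.2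
    rw [← hg, ro_coe, ro_coe] at h3
    have h4 : σ g' = (u : Matrix (Fin m) (Fin m) F) * (σ g *
        ((u⁻¹ : (Matrix (Fin m) (Fin m) F)ˣ) : Matrix (Fin m) (Fin m) F)) := by
      rw [← Matrix.mul_assoc, h3, Matrix.mul_assoc, Units.mul_inv, Matrix.mul_one]
    rw [h4, Matrix.trace_mul_comm, Matrix.mul_assoc, Units.inv_mul, Matrix.mul_one]
  obtain ⟨-, -, huniq⟩ := htcu ℓ F hF G R.B (tr σ) ⟨m, σ, hσ, rfl⟩ α β c hc hBα hBβ hcom
    (hfix α hBα A1 a2 a3) (hfix β hBβ B1 b2 b3)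
  refine huniq z ⟨m, σ, A1, B1, hσ, rfl, a2, b2, a3, b3, ?_⟩
  have e1 : X * (A1 * B1) = X * (z • (ro σ c * B1 * A1)) := by
    have e2 : X * (A1 * B1) = A * B * X := by
      rw [← Matrix.mul_assoc, ← a1, Matrix.mul_assoc, ← b1, Matrix.mul_assoc]
    have e3 : X * (ro σ c * B1 * A1) = ro ρ c * B * A * X := by
      rw [Matrix.mul_assoc (ro ρ c * B) A X, a1, ← Matrix.mul_assoc, ← Matrix.mul_assoc,
        ← Matrix.mul_assoc, Matrix.mul_assoc (ro ρ c) B X, b1, ← hX c hc]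
      simp only [Matrix.mul_assoc]
    rw [Matrix.mul_smul, e2, e3, hAB, Matrix.smul_mul]
  have e4 : Y * (X * (A1 * B1)) = Y * (X * (z • (ro σ c * B1 * A1))) := by rw [e1]
  rw [← Matrix.mul_assoc, hYX, Matrix.one_mul, ← Matrix.mul_assoc Y X, hYX, Matrix.one_mul] at e4
  exact e4

end Pool.Agent.PP.X1.H81
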